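import Pool.Agent.Y416.KG2

/-!
# MP_d5a1e1_nt: the number of different sections of a basis modulo `q`

The section of `A` in the class `u` modulo `q` is the set `sec A q u = {n | q n + u ∈ A}`, `0 ≤ u < q`.
Let `h ≥ 2`, let `A` be an asymptotic basis of order `h`, or only a set with at least `c N ^ (1/h)`
elements up to `N` for infinitely many `N`, and suppose that the representation function of order
`h` of `A` is bounded.  Then the number of different sections of `A` modulo `q`, even if sections are
identified when they differ by `o(N ^ (1/h))` elements up to `N`, is at least `T q ^ (1/h)` for every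
`T` and all large `q`.

So the conjecture of Erdős and Turán holds for every basis `A` of order `h` which has at most
`T q ^ (1/h)` classes of sections for some `T` and infinitely many `q`.  Examples are the sets whose
elements are recognised from their digits in a base `b`, read from the least significant one, by an
automaton (with possibly infinitely many states) which has `O (b ^ (m/h))` states that can be reached
in `m` steps, for infinitely many `m`, and the sets that differ from such a set by `o(N ^ (1/h))`
elements up to `N`.

Method.  (a) Two nearly equal sections `S`, `S'` in different classes `u`, `v`: every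
representation `s = x + y` in `B = S ∩ S'` yields the two representations
`(q x + u) + (q y + v) = (q x + v) + (q y + u)` in `A`.  If `S` has at least `c N ^ (1/h)` elements up
to `N` for infinitely many `N`, the same argument is applied to `B`, and so on; after `t` steps some
number has `2 ^ t` representations.  (b) If this is impossible, almost all elements of some
iterated intersection lie in the classes whose sections are near no other section.  If these are
`O (q ^ (1/h))` classes for infinitely many `q`, then the exponential sums over the set have large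
moments over infinitely many disjoint sets of rational frequencies, against the large sieve
inequality for the representation function (starting library `Pool.Agent.TH314.ETH`).
-/

set_option autoImplicit false

namespace Pool.Agent.Results.MP_d5a1e1_nt.DistinctSections

open Filter

/-- `r_{A,h}(n)`: the number of unordered representations of `n` as a sum of `h` elements of `A`. -/
noncomputable def rep (A : Set ℕ) (h n : ℕ) : ℕ :=
  Set.ncard {s : Multiset ℕ | Multiset.card s = h ∧ (∀ a ∈ s, a ∈ A) ∧ s.sum = n}

/-- `A` is an asymptotic basis of order `h`. -/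
def IsBasis (A : Set ℕ) (h : ℕ) : Prop :=
  ∃ n₀ : ℕ, ∀ n : ℕ, n₀ ≤ n → ∃ s : Multiset ℕ, Multiset.card s = h ∧ (∀ a ∈ s, a ∈ A) ∧ s.sum = n

/-- The section of `A` in the class `u` modulo `q`. -/
def sec (A : Set ℕ) (q u : ℕ) : Set ℕ := {n | q * n + u ∈ A}

/-- `S` and `S'` differ by `o(N ^ (1/h))` elements up to `N`. -/
def Near (h : ℕ) (S S' : Set ℕ) : Prop :=
  ∀ ε : ℝ, 0 < ε → ∀ᶠ N : ℕ in atTop,
    ((((S \ S') ∪ (S' \ S)) ∩ Set.Icc 1 N).ncard : ℝ) ^ h ≤ ε * N

/-- The number of different sections of `A` modulo `q`. -/
noncomputable def sections (A : Set ℕ) (q : ℕ) : ℕ :=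
  {S : Set ℕ | ∃ u < q, S = sec A q u}.ncard

/-- The number of different classes of the sections of `A` modulo `q`, where `S` and `S'` belong to
the same class if `Near h S S'`. -/
noncomputable def sectionClasses (A : Set ℕ) (h q : ℕ) : ℕ :=
  {C : Set (Set ℕ) | ∃ u < q, C = {S | Near h S (sec A q u)}}.ncard

/-- Let `h ≥ 2`, let `A` be an asymptotic basis of order `h`, or a set with
`|A ∩ [1, N]| ^ h ≥ c N` for some `c > 0` and infinitely many `N`, and let `r_{A,h}` be bounded.
Then (number of classes of sections modulo `q`) `^ h / q → ∞` as `q → ∞`, and in particular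
(number of different sections modulo `q`) `^ h / q → ∞`. -/
theorem result (h : ℕ) (hh : 2 ≤ h) (A : Set ℕ)
    (hA : IsBasis A h ∨
      ∃ c : ℝ, 0 < c ∧ ∃ᶠ N : ℕ in atTop, c * N ≤ ((A ∩ Set.Icc 1 N).ncard : ℝ) ^ h)
    (hr : ∃ K : ℕ, ∀ n : ℕ, rep A h n ≤ K) :
    Tendsto (fun q : ℕ => (sectionClasses A h q : ℝ) ^ h / q) atTop atTop ∧
    Tendsto (fun q : ℕ => (sections A q : ℝ) ^ h / q) atTop atTop := by
  have hT : Pool.Agent.TH314.ETH.Thick A h := by
    rcases hA with hA | hA
    · exact Pool.Agent.TH314.ETH.thick_of_all
        (Pool.Agent.TH314.ETH.thickAll_of_basis A (by omega) hA)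
    · exact hA
  have h1 : Tendsto (fun q : ℕ => (sectionClasses A h q : ℝ) ^ h / q) atTop atTop :=
    Pool.Agent.Y416.KG.main hh A hT hr
  refine ⟨h1, tendsto_atTop_mono (fun q => ?_) h1⟩
  have h2 : sectionClasses A h q ≤ sections A q := by
    have hfin : {S : Set ℕ | ∃ u < q, S = sec A q u}.Finite := by
      have : {S : Set ℕ | ∃ u < q, S = sec A q u} = (fun u => sec A q u) '' (Set.Iio q) := by
        ext S
        constructor
        · rintro ⟨u, hu, rfl⟩
          exact ⟨u, hu, rfl⟩
        · rintro ⟨u, hu, rfl⟩
          exact ⟨u, hu, rfl⟩
      rw [this]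
      exact (Set.finite_Iio q).image _
    have hsub : {C : Set (Set ℕ) | ∃ u < q, C = {S | Near h S (sec A q u)}} ⊆
        (fun S => {S' | Near h S' S}) '' {S : Set ℕ | ∃ u < q, S = sec A q u} := by
      rintro C ⟨u, hu, rfl⟩
      exact ⟨sec A q u, ⟨u, hu, rfl⟩, rfl⟩
    exact (Set.ncard_le_ncard hsub (hfin.image _)).trans (Set.ncard_image_le hfin)
  have h3 : (sectionClasses A h q : ℝ) ≤ sections A q := by exact_mod_cast h2
  exact div_le_div_of_nonneg_right (pow_le_pow_left₀ (Nat.cast_nonneg _) h3 h) (Nat.cast_nonneg _)

end Pool.Agent.Results.MP_d5a1e1_nt.DistinctSections
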