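import Pool.Agent.Y939.RP.Prob

/-!
# MP_d5a1e1_nt: the conjecture for order `h` holds almost surely after a small random perturbation

Let `h ≥ 2` and let `A = {a_1 < a_2 < ...}` be any set with `a_n ≤ C n ^ h`; every asymptotic basis
of order `h` has this property. Its elements are moved to the right by independent random amounts:
`A' = {a_n + Z_n}`. `rep A' h n` is the number of representations of `n` as a sum of `h` elements
of `A'`, up to the order of the summands.

1. Let `K ≥ 2`. If for every `z ≤ bound h C K` the probability of `Z_i = z` is at least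
   `i ^ (-1 / (4 h K))` for all large `i`, then almost surely `r_{A',h}(n) ≥ K` for infinitely many
   `n`. For example, if all the `Z_i` are uniformly distributed on `{0, ..., m}`, then
   `limsup r_{A',h}(n) ≥ c m ^ (1 / (2 h))` almost surely, where `c > 0` depends only on `h`, `C`.
2. If for every fixed `z` the probability of `Z_i = z` is at least `i ^ (-o(1))`, then `r_{A',h}` is
   almost surely unbounded. This condition holds for independent identically distributed `Z_i` with
   arbitrarily small tails if all natural numbers have positive probability, for `Z_i` uniformly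
   distributed on `{0, ..., m_i}`, where `m_i → ∞` arbitrarily slowly (`m_i = i ^ o(1)`), and also if
   the probability of `Z_i ≠ 0` tends to zero (not faster than `i ^ (-o(1))`).
3. In particular this holds for every asymptotic basis `A` of order `h`.

So every counterexample to the Erdős–Turán conjecture of any order is destroyed, with probability
one, by independent perturbations of arbitrarily slowly growing size which concern only a
proportion `o(1)` of the elements.

The starting result `SlowPerturbations` of this problem treats perturbations which are spread evenly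
over `[0, w_n]`, where `w_n` is monotone and unbounded.

Method: let `L` be a large constant (in terms of `h`, `C`, `K`). Among `≫ x` consecutive elements
there are `2 K` elements in an interval of length `L`, or there are `≫ x` elements with distances
greater than `L`. In the second case some window of length `L` contains the sums of more than
`K ^ h h!` sets of `h` elements, and the sunflower lemma gives `K` of these sets which have pairwise
the same intersection; all of them can be moved to the same sum. There are `x` disjoint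
possibilities of this kind among the elements `a_i`, `x ≤ i < 12 h K x`.
-/

set_option autoImplicit false

open Filter MeasureTheory ProbabilityTheory

namespace Pool.Agent.Results.MP_d5a1e1_nt.RandomPerturbations

/-- `r_{A,h}(n)`: the number of multisets of `h` elements of `A` with sum `n`, that is, the number
of representations of `n` as a sum of `h` elements of `A`, up to the order of the summands -/
noncomputable def rep (A : Set ℕ) (h n : ℕ) : ℕ :=
  {s : Multiset ℕ | Multiset.card s = h ∧ (∀ a ∈ s, a ∈ A) ∧ s.sum = n}.ncard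

/-- the `i`-th element of the infinite set `A`, counting from `i = 0` -/
noncomputable def elt (A : Set ℕ) (i : ℕ) : ℕ := Nat.nth (fun a => a ∈ A) i

/-- the perturbed set: the `i`-th element of `A` is replaced by itself plus `z i` -/
def moved (A : Set ℕ) (z : ℕ → ℕ) : Set ℕ := {x | ∃ i : ℕ, x = elt A i + z i}

/-- the size of the perturbations which is needed for `K` representations -/
def bound (h C K : ℕ) : ℕ :=
  2 * (h * (C + 1) * (12 * h * K) ^ h) * (K ^ h * h.factorial) * h.factorial + 2 * K

theorem rep_eq (A : Set ℕ) (h n : ℕ) : rep A h n = Pool.Agent.Y939.RP.rep A h n := rfl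

theorem moved_eq (A : Set ℕ) (z : ℕ → ℕ) :
    moved A z = Set.range fun i => Nat.nth (fun a => a ∈ A) i + z i := by
  ext x
  constructor
  · rintro ⟨i, rfl⟩
    exact ⟨i, rfl⟩
  · rintro ⟨i, rfl⟩
    exact ⟨i, rfl⟩

/-- an asymptotic basis is infinite -/
theorem basis_infinite (A : Set ℕ) (h n₀ : ℕ) (hb : ∀ n ≥ n₀, 0 < rep A h n) : A.Infinite := by
  intro hfin
  obtain ⟨M, hM⟩ := hfin.bddAbove
  have h1 := hb (n₀ + (h * M + 1)) (Nat.le_add_right _ _)
  have h2 : {s : Multiset ℕ | Multiset.card s = h ∧ (∀ a ∈ s, a ∈ A) ∧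
      s.sum = n₀ + (h * M + 1)}.Nonempty := by
    rw [Set.nonempty_iff_ne_empty]
    intro h6
    rw [rep, h6, Set.ncard_empty] at h1
    omega
  obtain ⟨s, hs1, hs2, hs3⟩ := h2
  have h3 : s.sum ≤ Multiset.card s • M := Multiset.sum_le_card_nsmul s M fun a ha => hM (hs2 a ha)
  rw [hs1, smul_eq_mul] at h3
  omega

/-- `A` is any set with `a_n ≤ C n ^ h` (`a_{i+1} = elt A i`), or any asymptotic basis of order
`h`; the `Z i` are independent. -/
theorem result (h : ℕ) (hh : 2 ≤ h) (A : Set ℕ)
    (Ω : Type) [MeasurableSpace Ω] (μ : Measure Ω) [IsProbabilityMeasure μ]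
    (Z : ℕ → Ω → ℕ) (hZ : ∀ i, Measurable (Z i)) (hind : iIndepFun Z μ) :
    -- 1. perturbations with values in a finite set
    (∀ C : ℕ, A.Infinite → (∀ i : ℕ, elt A i ≤ C * (i + 1) ^ h) → ∀ K : ℕ, 2 ≤ K →
      (∀ z ≤ bound h C K, ∀ᶠ i : ℕ in atTop,
        (i : ℝ) ^ (-(1 / (4 * (h : ℝ) * (K : ℝ)))) ≤ μ.real {ω | Z i ω = z}) →
      ∀ᵐ ω ∂μ, ∀ m : ℕ, ∃ n ≥ m, K ≤ rep (moved A fun i => Z i ω) h n) ∧
    -- 2. unbounded representation function
    (∀ C : ℕ, A.Infinite → (∀ i : ℕ, elt A i ≤ C * (i + 1) ^ h) →
      (∀ z : ℕ, ∀ ε : ℝ, 0 < ε → ∀ᶠ i : ℕ in atTop, (i : ℝ) ^ (-ε) ≤ μ.real {ω | Z i ω = z}) →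
      ∀ᵐ ω ∂μ, ∀ K : ℕ, ∃ n, K < rep (moved A fun i => Z i ω) h n) ∧
    -- 3. the same for asymptotic bases
    ((∃ n₀ : ℕ, ∀ n ≥ n₀, 0 < rep A h n) →
      (∀ z : ℕ, ∀ ε : ℝ, 0 < ε → ∀ᶠ i : ℕ in atTop, (i : ℝ) ^ (-ε) ≤ μ.real {ω | Z i ω = z}) →
      ∀ᵐ ω ∂μ, ∀ K : ℕ, ∃ n, K < rep (moved A fun i => Z i ω) h n) := by
  have part2 : ∀ C : ℕ, A.Infinite → (∀ i : ℕ, elt A i ≤ C * (i + 1) ^ h) →
      (∀ z : ℕ, ∀ ε : ℝ, 0 < ε → ∀ᶠ i : ℕ in atTop, (i : ℝ) ^ (-ε) ≤ μ.real {ω | Z i ω = z}) →
      ∀ᵐ ω ∂μ, ∀ K : ℕ, ∃ n, K < rep (moved A fun i => Z i ω) h n := by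
    intro C hA hC hpr
    have h1 := Pool.Agent.Y939.RP.perturbed_unbounded Z hZ hind _ (Nat.nth_strictMono hA) h C hh
      hC hpr
    filter_upwards [h1] with ω hω K
    rw [moved_eq]
    obtain ⟨n, _, hn⟩ := hω (K + 1) 0
    exact ⟨n, hn⟩
  refine ⟨?_, part2, ?_⟩
  · intro C hA hC K hK hpr
    have h1 := Pool.Agent.Y939.RP.perturbed Z hZ hind _ (Nat.nth_strictMono hA) h C K hh hK hC (by
      have : ∀ᶠ i : ℕ in atTop, ∀ z ∈ Finset.range (bound h C K + 1),
          (i : ℝ) ^ (-(1 / (4 * (h : ℝ) * (K : ℝ)))) ≤ μ.real {ω | Z i ω = z} :=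
        (Finset.eventually_all _).2 fun z hz => hpr z (by
          have := Finset.mem_range.1 hz
          omega)
      filter_upwards [this] with i hi z hz
      exact hi z (Finset.mem_range.2 (Nat.lt_succ_of_le hz)))
    filter_upwards [h1] with ω hω m
    rw [moved_eq]
    obtain ⟨m₀, hm₀⟩ := eventually_atTop.1 hω
    obtain ⟨n, hn1, hn2⟩ := hm₀ (max m m₀) (le_max_right _ _)
    exact ⟨n, (le_max_left _ _).trans hn1, hn2⟩
  · rintro ⟨n₀, hb⟩ hpr
    have hA : A.Infinite := basis_infinite A h n₀ hb
    exact part2 (n₀ + 1) hA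
      (Pool.Agent.Y939.RP.basis_growth A hA h n₀ (by omega) hb) hpr

end Pool.Agent.Results.MP_d5a1e1_nt.RandomPerturbations
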