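import Pool.Agent.Y940.CH.Derand
import Pool.Agent.Y940.CH.Count
import Pool.Agent.Y940.CH.Seq
import Pool.Agent.Y940.CH.Mean
import Pool.Agent.Y940.CH.Harris
import Pool.Agent.Y940.CH.Cyl

/-!
# MP_d5a1e1_nt: the conjecture of every order inside random sets

`rep A h n` is the number `r_{A,h}(n)` of multisets of `h` elements of `A` with sum `n`, and
`count B N = |B ∩ [1, N]|`. A random set `A = rset E ω = {n | ω ∈ E n}` of natural numbers is given
by events `E n` with `P(T ⊆ A) ≤ ∏_{n ∈ T} p n` for all finite `T` (`Sub μ E p`; equality with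
`p n = P(n ∈ A)` if the events are independent). Let `h ≥ 2`.

1. There are only `exp (O (N ^ (1/h)))` sets `B ⊆ [0, N]` with `r_{B,h} ≤ K`, and at most
   `(C N / t ^ h) ^ t` of them have `t` elements, if `t ≥ N ^ (1/h - κ)`.
2. There is a constant `C = C(h, K)` such that in every random set and for every `c > 0`, almost
   surely, EVERY subset `B` with `r_{B,h} ≤ K` has fewer than `c N ^ (1/h)` elements `n ≤ N` with
   `p n ≤ c ^ h / C`, for all large `N`.
3. If `p n → 0`, arbitrarily slowly, then almost surely, for every `h ≥ 2`, every subset `B` of the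
   random set with bounded `r_{B,h}` satisfies `|B ∩ [1, N]| = o(N ^ (1/h))`.
4. Hence almost surely every asymptotic basis of order `h ≥ 2` which is contained in the random set
   has an unbounded representation function of order `h`. The same is true for the set of the
   values of independent random natural numbers `X k` with `∑ k, P(X k = n) → 0`.
5. The random set itself is almost surely an asymptotic basis of every order `h ≥ 2` if the events
   are independent and `p n ≥ n ^ (-1/8)` for large `n`.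
6. Independent events with arbitrary probabilities: if the random set is a counterexample of order
   `h` to the conjecture with positive probability, then so are the deterministic sets
   `{n | P(n ∈ A) ≥ ε}` for all small `ε > 0`.

Method. A set with bounded `r_{B,h}` has bounded `r_{B,i}` for all `i ≤ h`, so for `2 ≤ i ≤ h` no
number is the sum of `K + 1` pairwise disjoint subsets of `B` with `i` elements. Let
`U ⊆ [0, N]` have `M = y N ^ (1/h)` elements. For some `i` there are `≫ M ^ i` subsets of `U` with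
`i` elements whose sums are represented `y ^ (i - (h - i) η)` times by sets all of whose proper
subsets have sums with few representations; the hypergraph of the unions of `K + 1` disjoint
such sets of the same sum has well distributed codegrees, and the container method applies to it.
-/

set_option autoImplicit false

namespace Pool.Agent.Results.MP_d5a1e1_nt.RelativeErdosTuran

open Filter Finset MeasureTheory ProbabilityTheory Pool.Agent.Y940.CH
open Pool.Agent.Y940.CT (Sub count)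
open Pool.Agent.Y940.RS (rset)

universe u

/-- **The Erdős–Turán conjecture of every order inside random sets.** -/
theorem result :
    -- 1. the number of sets with bounded representation function
    (∀ h K : ℕ, 2 ≤ h → ∃ κ : ℝ, 0 < κ ∧ ∃ C : ℝ, 0 < C ∧ ∀ N : ℕ, 1 ≤ N →
      (({B : Set ℕ | B ⊆ Set.Iic N ∧ ∀ n, rep B h n ≤ K}.ncard : ℕ) : ℝ) ≤
        Real.exp (C * (N : ℝ) ^ (1 / (h : ℝ))) ∧
      ∀ t : ℕ, (N : ℝ) ^ (1 / (h : ℝ) - κ) ≤ t →
        (({B : Set ℕ | B ⊆ Set.Iic N ∧ B.ncard = t ∧ ∀ n, rep B h n ≤ K}.ncard : ℕ) : ℝ) ≤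
          (C * N / (t : ℝ) ^ h) ^ t) ∧
    -- 2. localisation at the level sets, in arbitrary random sets
    (∀ h K : ℕ, 2 ≤ h → ∃ C : ℝ, 0 < C ∧ ∀ c : ℝ, 0 < c →
      ∀ (Ω : Type u) [MeasurableSpace Ω] (μ : Measure Ω) [IsProbabilityMeasure μ]
        (E : ℕ → Set Ω) (p : ℕ → ℝ), Sub μ E p →
        ∀ᵐ ω ∂μ, ∀ B : Set ℕ, B ⊆ rset E ω → (∀ n, rep B h n ≤ K) →
          ∀ᶠ N : ℕ in atTop,
            count (B ∩ {n | p n ≤ c ^ h / C}) N < c * (N : ℝ) ^ (1 / (h : ℝ))) ∧
    -- 3. probabilities which tend to zero: all subsets with bounded representation function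
    (∀ (Ω : Type u) [MeasurableSpace Ω] (μ : Measure Ω) [IsProbabilityMeasure μ]
      (E : ℕ → Set Ω) (p : ℕ → ℝ), Sub μ E p → Tendsto p atTop (nhds 0) →
      ∀ᵐ ω ∂μ, ∀ h : ℕ, 2 ≤ h → ∀ B : Set ℕ, B ⊆ rset E ω → (∃ K, ∀ n, rep B h n ≤ K) →
        Tendsto (fun N : ℕ => count B N / (N : ℝ) ^ (1 / (h : ℝ))) atTop (nhds 0)) ∧
    -- 4. the conjecture holds for all subsets
    (∀ (Ω : Type u) [MeasurableSpace Ω] (μ : Measure Ω) [IsProbabilityMeasure μ]
      (E : ℕ → Set Ω) (p : ℕ → ℝ), Sub μ E p → Tendsto p atTop (nhds 0) →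
      ∀ᵐ ω ∂μ, ∀ h : ℕ, 2 ≤ h → ∀ B : Set ℕ, B ⊆ rset E ω → (∀ᶠ n in atTop, 1 ≤ rep B h n) →
        ∀ K, ∃ n, K < rep B h n) ∧
    -- 4'. random sequences
    (∀ (Ω : Type u) [MeasurableSpace Ω] (μ : Measure Ω) [IsProbabilityMeasure μ]
      (X : ℕ → Ω → ℕ), (∀ k, Measurable (X k)) → iIndepFun X μ →
      (∀ n, Summable fun k => μ.real {ω | X k ω = n}) →
      Tendsto (fun n => ∑' k, μ.real {ω | X k ω = n}) atTop (nhds 0) →
      ∀ᵐ ω ∂μ, ∀ h : ℕ, 2 ≤ h → ∀ B : Set ℕ, B ⊆ Set.range (fun k => X k ω) →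
        (∀ᶠ n in atTop, 1 ≤ rep B h n) → ∀ K, ∃ n, K < rep B h n) ∧
    -- 5. the random set itself may be an asymptotic basis
    (∀ (Ω : Type u) [MeasurableSpace Ω] (μ : Measure Ω) [IsProbabilityMeasure μ]
      (E : ℕ → Set Ω), (∀ n, MeasurableSet (E n)) → iIndepSet E μ →
      (∀ᶠ n : ℕ in atTop, (n : ℝ) ^ (-(1 / 8 : ℝ)) ≤ μ.real (E n)) →
      Sub μ E (fun n => μ.real (E n)) ∧
        ∀ᵐ ω ∂μ, ∀ h : ℕ, 2 ≤ h → ∀ᶠ n in atTop, 1 ≤ rep (rset E ω) h n) ∧
    -- 6. random counterexamples are deterministic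
    (∀ (Ω : Type u) [MeasurableSpace Ω] (μ : Measure Ω) [IsProbabilityMeasure μ]
      (E : ℕ → Set Ω), (∀ n, MeasurableSet (E n)) → iIndepSet E μ → ∀ h : ℕ, 2 ≤ h →
      0 < μ {ω | (∀ᶠ n in atTop, 1 ≤ rep (rset E ω) h n) ∧
        ∃ K, ∀ n, rep (rset E ω) h n ≤ K} →
      ∃ ε₀ : ℝ, 0 < ε₀ ∧ ∀ ε : ℝ, 0 < ε → ε ≤ ε₀ →
        (∀ᶠ n in atTop, 1 ≤ rep {n | ε ≤ μ.real (E n)} h n) ∧
        ∃ K, ∀ n, rep {n | ε ≤ μ.real (E n)} h n ≤ K) := by
  have h4 : ∀ (Ω : Type u) [MeasurableSpace Ω] (μ : Measure Ω) [IsProbabilityMeasure μ]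
      (E : ℕ → Set Ω) (p : ℕ → ℝ), Sub μ E p → Tendsto p atTop (nhds 0) →
      ∀ᵐ ω ∂μ, ∀ h : ℕ, 2 ≤ h → ∀ B : Set ℕ, B ⊆ rset E ω → (∀ᶠ n in atTop, 1 ≤ rep B h n) →
        ∀ K, ∃ n, K < rep B h n := by
    intro Ω _ μ _ E p hE hp
    filter_upwards [little_o hE hp] with ω hω h hh B hB hbas K
    by_contra hcon
    push Not at hcon
    exact no_basis hh hbas (hω h hh B hB ⟨K, hcon⟩)
  refine ⟨?_, fun h K hh => localisation h K hh,
    fun Ω _ μ _ E p hE hp => little_o hE hp, h4, ?_, ?_, ?_⟩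
  · intro h K hh
    obtain ⟨C₁, hC₁, h1⟩ := counting h K hh
    obtain ⟨κ, hκ, C₂, hC₂, h2⟩ := counting_card h K hh
    refine ⟨κ, hκ, max C₁ C₂, lt_max_of_lt_left hC₁, ?_⟩
    intro N hN
    refine ⟨(h1 N hN).trans (Real.exp_le_exp.2
      (mul_le_mul_of_nonneg_right (le_max_left _ _) (by positivity))), fun t ht => ?_⟩
    refine (h2 N t hN ht).trans ?_
    exact pow_le_pow_left₀ (by positivity) (div_le_div_of_nonneg_right
      (mul_le_mul_of_nonneg_right (le_max_right _ _) (by positivity)) (by positivity)) t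
  · intro Ω _ μ _ X hX hi hs hp
    filter_upwards [h4 Ω μ (fun n => {ω | ∃ k, X k ω = n}) _ (sub_seq hX hi hs) hp]
      with ω hω h hh B hB hbas K
    refine hω h hh B ?_ hbas K
    intro n hn
    obtain ⟨k, hk⟩ := hB hn
    exact ⟨k, hk⟩
  · intro Ω _ μ _ E hm h hp
    refine ⟨⟨fun n => measureReal_nonneg, fun T => ?_⟩, ?_⟩
    · exact ((Pool.Agent.Y940.RS.KW.of_indep hm h T.card).2 T le_rfl).le
    · filter_upwards [Pool.Agent.Y940.CT.ae_basis hm h hp] with ω hω k hk
      exact Forms.order_two _ k hk hω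
  · intro Ω _ μ _ E hm hi h hh hpos
    exact derand mean_main harris_main cyl_main hm hi hh hpos

end Pool.Agent.Results.MP_d5a1e1_nt.RelativeErdosTuran
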