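import Pool.Agent.W305.ET.Circ2

/-!
# MP_d5a1e1_nt: bases of order `h` and computations with sets

`reps A h n` is the set of the unordered representations of `n` as a sum of `h` elements of `A`
(multisets of `h` elements of `A` with sum `n`), so that `r_{A,h}(n)` is its cardinality.

A computation of length `S` is a sequence of `S` finite sets of integers, each of which is a
singleton or the union, the sum set or the difference set of two earlier ones (`ComputedIn`).
Neither the unions need be disjoint nor the sums direct.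

1. Explicit inequality.  Let `m = ⌊h / 2⌋`, let `r_{A,h}(n) ≤ r < C(u + m, m)` for all `n ≤ h L`, and
   let every `n` with `n₀ ≤ n ≤ N` be a sum of `h` elements of `A`.  If the elements of `A` up to `N`
   are covered by `K` subsets of `A ∩ [0, L]` with computations of length `S`, then
   `N + 1 ≤ n₀ + (K (16 S u²) ^ (4 log₂ (2 u))) ^ h`.
2. Hence `r_{A,h}` is unbounded for every asymptotic basis `A` of order `h` such that for some
   `ε > 0`, every `δ > 0` and arbitrarily large `N`, the set `A ∩ [0, N]` is covered by at most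
   `N ^ (1/h - ε)` subsets of `A` with computations of length at most `N ^ δ`.
3. If the computations have length at most `exp (√(log N))`, then
   `r_{A,h}(n) ≥ exp (c √(log N))` for some `n ≤ h N`, with `c = c(ε, h) > 0`.

Method.  A symmetric subset `X = M - X` of `A` gives `C(⌈|X|/2⌉ + m - 1, m)` representations of one
number as a sum of `h` elements, so symmetric subsets of `A` are small.  By the theorem of
`Pool.Agent.W305.ET.Circ2` a set without large symmetric subsets which is computed in `S` steps is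
small.
-/

set_option autoImplicit false

namespace Pool.Agent.Results.MP_d5a1e1_nt.SetComputations

open Finset Pointwise Pool.Agent.W305.ET

/-- The unordered representations of `n` as a sum of `h` elements of `A`. -/
def reps (A : Set ℕ) (h n : ℕ) : Set (Multiset ℕ) :=
  {s : Multiset ℕ | Multiset.card s = h ∧ (∀ a ∈ s, a ∈ A) ∧ s.sum = n}

/-- `G` is one of the sets of a computation of length `S`. -/
def ComputedIn (S : ℕ) (G : Finset ℤ) : Prop :=
  ∃ F : ℕ → Finset ℤ, (∀ i < S, (∃ c : ℤ, F i = {c}) ∨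
    ∃ j < i, ∃ k < i, F i = F j ∪ F k ∨ F i = F j + F k ∨ F i = F j - F k) ∧
    ∃ i < S, F i = G

theorem reps_exists_fun {A : Set ℕ} {h n : ℕ} {s : Multiset ℕ} (hs : s ∈ reps A h n) :
    ∃ f : Fin h → ℕ, (∀ i, f i ∈ A) ∧ (∀ i, f i ≤ n) ∧ Multiset.ofList (List.ofFn f) = s := by
  obtain ⟨hc, hA, hsum⟩ := hs
  obtain ⟨l, rfl⟩ := Quotient.exists_rep s
  have hl : l.length = h := hc
  subst hl
  refine ⟨fun i => l.get i, fun i => hA _ (by simp), fun i => ?_, ?_⟩
  · have h1 : (l.get i) ∈ (Multiset.ofList l) := by simp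
    have h2 := Multiset.single_le_sum (s := Multiset.ofList l) (fun x _ => Nat.zero_le x) _ h1
    have h3 : (Multiset.ofList l).sum = n := hsum
    show l.get i ≤ n
    omega
  · rw [List.ofFn_get]
    rfl

theorem reps_finite (A : Set ℕ) (h n : ℕ) : (reps A h n).Finite := by
  have h1 : (Set.range fun f : Fin h → Fin (n + 1) =>
      Multiset.ofList (List.ofFn fun i => (f i : ℕ))).Finite := Set.finite_range _
  refine h1.subset ?_
  intro s hs
  obtain ⟨f, _, hf, rfl⟩ := reps_exists_fun hs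
  exact ⟨fun i => ⟨f i, Nat.lt_succ_of_le (hf i)⟩, rfl⟩

/-- a multiset of the upper half of a symmetric set is determined by its symmetrisation -/
lemma sym_inj {M : ℕ} {s t : Multiset ℕ} (hs : ∀ x ∈ s, M ≤ 2 * x ∧ x ≤ M)
    (ht : ∀ x ∈ t, M ≤ 2 * x ∧ x ≤ M)
    (h : s + s.map (fun x => M - x) = t + t.map (fun x => M - x)) : s = t := by
  classical
  have key : ∀ s : Multiset ℕ, (∀ x ∈ s, M ≤ 2 * x ∧ x ≤ M) → ∀ y : ℕ, M ≤ 2 * y →
      Multiset.count y (s.map (fun x => M - x)) =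
        if 2 * y = M then Multiset.count y s else 0 := by
    intro s
    induction s using Multiset.induction with
    | empty => intro _ y _; simp
    | cons a s ih =>
      intro hs y hy
      have ha := hs a (Multiset.mem_cons_self a s)
      have ih' := ih (fun x hx => hs x (Multiset.mem_cons_of_mem hx)) y hy
      rw [Multiset.map_cons, Multiset.count_cons, ih', Multiset.count_cons]
      by_cases h1 : 2 * y = M
      · rw [if_pos h1, if_pos h1]
        by_cases h2 : y = a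
        · rw [if_pos h2, if_pos (by omega)]
        · rw [if_neg h2, if_neg (by omega)]
      · rw [if_neg h1, if_neg h1, if_neg (by omega)]
  ext y
  by_cases hy : M ≤ 2 * y
  · have h1 := congrArg (Multiset.count y) h
    rw [Multiset.count_add, Multiset.count_add, key s hs y hy, key t ht y hy] at h1
    split_ifs at h1 with h2
    · omega
    · omega
  · have h1 : y ∉ s := fun h => hy (hs y h).1
    have h2 : y ∉ t := fun h => hy (ht y h).1
    rw [Multiset.count_eq_zero_of_notMem h1, Multiset.count_eq_zero_of_notMem h2]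

/-- A symmetric subset of `A` with at least `2 u + 1` elements gives `C(u + m, m)` representations,
`m = ⌊h / 2⌋`. -/
lemma reps_of_symmetric {A : Set ℕ} {h L : ℕ} {X : Finset ℕ} {M u : ℕ}
    (hX : ∀ x ∈ X, x ∈ A ∧ x ≤ L) (hM : ∀ x ∈ X, x ≤ M ∧ M - x ∈ X) (hu : 2 * u + 1 ≤ X.card) :
    ∃ n ≤ h * L, (u + h / 2).choose (h / 2) ≤ (reps A h n).ncard := by
  classical
  obtain ⟨a0, ha0⟩ : X.Nonempty := Finset.card_pos.1 (by omega)
  set m := h / 2 with hm
  set P := X.filter (fun x => M ≤ 2 * x) with hP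
  have hPc : u + 1 ≤ P.card := by
    have h1 : X ⊆ P ∪ P.image (fun x => M - x) := by
      intro x hx
      by_cases hxM : M ≤ 2 * x
      · exact Finset.mem_union_left _ (Finset.mem_filter.2 ⟨hx, hxM⟩)
      · have h2 := hM x hx
        refine Finset.mem_union_right _ (Finset.mem_image.2 ⟨M - x, ?_, by omega⟩)
        exact Finset.mem_filter.2 ⟨h2.2, by omega⟩
    have h2 := Finset.card_le_card h1
    have h3 := Finset.card_union_le P (P.image (fun x => M - x))
    have h4 : (P.image (fun x => M - x)).card ≤ P.card := Finset.card_image_le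
    omega
  have hML : M ≤ 2 * L := by
    have h1 := hM a0 ha0
    have h2 := (hX a0 ha0).2
    have h3 := (hX _ h1.2).2
    omega
  let φ : Sym {x // x ∈ P} m → Multiset ℕ := fun s =>
    ((s : Multiset {x // x ∈ P}).map Subtype.val +
      ((s : Multiset {x // x ∈ P}).map Subtype.val).map (fun x => M - x)) +
        Multiset.replicate (h - 2 * m) a0
  have hmem : ∀ (s : Sym {x // x ∈ P} m), ∀ x ∈ (s : Multiset {x // x ∈ P}).map Subtype.val,
      x ∈ P := by
    intro s x hx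
    rw [Multiset.mem_map] at hx
    obtain ⟨y, _, rfl⟩ := hx
    exact y.2
  have hsum : ∀ t : Multiset ℕ, (∀ x ∈ t, x ≤ M) →
      (t + t.map (fun x => M - x)).sum = Multiset.card t * M := by
    intro t
    induction t using Multiset.induction with
    | empty => intro _; simp
    | cons a t ih =>
      intro ht
      have h1 := ih (fun x hx => ht x (Multiset.mem_cons_of_mem hx))
      have h2 := ht a (Multiset.mem_cons_self a t)
      rw [Multiset.sum_add] at h1 ⊢
      rw [Multiset.sum_cons, Multiset.map_cons, Multiset.sum_cons, Multiset.card_cons, add_mul,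
        one_mul, ← h1]
      omega
  refine ⟨m * M + (h - 2 * m) * a0, ?_, ?_⟩
  · have h1 : m * M ≤ m * (2 * L) := Nat.mul_le_mul_left _ hML
    have h2 : (h - 2 * m) * a0 ≤ (h - 2 * m) * L := Nat.mul_le_mul_left _ (hX a0 ha0).2
    have h3 : m * (2 * L) + (h - 2 * m) * L = h * L := by
      have h4 : 2 * m ≤ h := by omega
      obtain ⟨k, hk⟩ := Nat.exists_eq_add_of_le h4
      rw [hk, Nat.add_sub_cancel_left]
      ring
    omega
  · have hφ : ∀ s, φ s ∈ reps A h (m * M + (h - 2 * m) * a0) := by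
      intro s
      have hs : Multiset.card ((s : Multiset {x // x ∈ P}).map Subtype.val) = m := by
        rw [Multiset.card_map]; exact s.2
      refine ⟨?_, ?_, ?_⟩
      · show Multiset.card ((_ + _) + _) = h
        rw [Multiset.card_add, Multiset.card_add, Multiset.card_map _ (Multiset.map _ _), hs,
          Multiset.card_replicate]
        omega
      · intro a ha
        rw [Multiset.mem_add, Multiset.mem_add, Multiset.mem_replicate] at ha
        rcases ha with (ha | ha) | ⟨_, rfl⟩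
        · exact (hX a (Finset.mem_filter.1 (hmem s a ha)).1).1
        · rw [Multiset.mem_map] at ha
          obtain ⟨b, hb, rfl⟩ := ha
          exact (hX _ (hM b (Finset.mem_filter.1 (hmem s b hb)).1).2).1
        · exact (hX _ ha0).1
      · show Multiset.sum ((_ + _) + _) = _
        rw [Multiset.sum_add, hsum _ (fun x hx => (hM x (Finset.mem_filter.1 (hmem s x hx)).1).1), hs,
          Multiset.sum_replicate, smul_eq_mul]
    have hinj : Function.Injective φ := by
      intro s t hst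
      have h1 := Multiset.add_left_inj.1 hst
      have h2 : ∀ s : Sym {x // x ∈ P} m,
          ∀ x ∈ (s : Multiset {x // x ∈ P}).map Subtype.val, M ≤ 2 * x ∧ x ≤ M := by
        intro s x hx
        have h3 := Finset.mem_filter.1 (hmem s x hx)
        exact ⟨h3.2, (hM x h3.1).1⟩
      have h3 := sym_inj (h2 s) (h2 t) h1
      have h4 := Multiset.map_injective Subtype.val_injective h3
      exact Subtype.ext h4
    have h1 : Fintype.card (Sym {x // x ∈ P} m) ≤
        (reps A h (m * M + (h - 2 * m) * a0)).ncard := by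
      rw [← Finset.card_univ, ← Finset.card_image_of_injective _ hinj, ← Set.ncard_coe_finset]
      refine Set.ncard_le_ncard ?_ (reps_finite _ _ _)
      intro t ht
      rw [Finset.mem_coe, Finset.mem_image] at ht
      obtain ⟨s, _, rfl⟩ := ht
      exact hφ s
    refine le_trans ?_ h1
    rw [Sym.card_sym_eq_multichoose, Fintype.card_coe, Nat.multichoose_eq]
    exact Nat.choose_le_choose m (by omega)


/-- A computed set all of whose symmetric subsets have at most `2 u` elements. -/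
lemma card_le_of_symmetric {S u : ℕ} {G : Finset ℤ} (hG : ComputedIn S G) (hu : 1 ≤ u)
    (hs : ∀ X ⊆ G, (∃ M : ℤ, ∀ x ∈ X, M - x ∈ X) → X.card ≤ 2 * u) :
    G.card ≤ (16 * S * u ^ 2) ^ (4 * Nat.log 2 (2 * u)) := by
  obtain ⟨F, hF, i, hi, rfl⟩ := hG
  have hF' : IsComp S F := hF
  set t := 2 * u with ht
  have key : ∀ d, t < 2 ^ d → ¬ Sym {0} (F i) d := by
    rintro d hd ⟨X, hX, hM, hc, _⟩
    have := hs X hX hM
    omega
  set d := Nat.log 2 t with hd
  have h1 : t < 2 ^ (d + 1) := Nat.lt_pow_succ_log_self (by norm_num) t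
  have hpos : 1 ≤ d := Nat.log_pos (by norm_num) (by omega)
  have h2 := card_le_sym hF' d i hi (key _ h1)
  have h3 : 4 ^ d ≤ t ^ 2 := by
    have h4 : 2 ^ d ≤ t := Nat.pow_log_le_self 2 (by omega)
    calc 4 ^ d = (2 ^ d) ^ 2 := by rw [← pow_mul, mul_comm, pow_mul]; norm_num
      _ ≤ t ^ 2 := Nat.pow_le_pow_left h4 2
  have h5 : ex d ≤ 4 * d := by
    obtain ⟨e, he⟩ : ∃ e, d = e + 1 := ⟨d - 1, by omega⟩
    rw [he]; simp only [ex]; omega
  have h6 : 4 * S * t ^ 2 = 16 * S * u ^ 2 := by rw [ht]; ring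
  calc (F i).card ≤ (4 * S * 4 ^ d) ^ ex d := h2
    _ ≤ (4 * S * t ^ 2) ^ ex d := Nat.pow_le_pow_left (Nat.mul_le_mul_left _ h3) _
    _ ≤ (4 * S * t ^ 2) ^ (4 * d) := by
      apply Nat.pow_le_pow_right _ h5
      have : 1 ≤ t ^ 2 := Nat.one_le_pow _ _ (by omega)
      have h6 : 1 ≤ S := by omega
      nlinarith [Nat.mul_le_mul h6 this]
    _ = (16 * S * u ^ 2) ^ (4 * d) := by rw [h6]

/-- A computed subset of `A ∩ [0, L]` is small if `r_{A,h} ≤ r` on `[0, h L]`. -/
lemma card_computed_le {A : Set ℕ} {h L r u S : ℕ} {G : Finset ℤ} (hu : 1 ≤ u)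
    (hr : r < (u + h / 2).choose (h / 2)) (hA : ∀ n ≤ h * L, (reps A h n).ncard ≤ r)
    (hG : ComputedIn S G) (hGA : ∀ x ∈ G, ∃ a ∈ A, a ≤ L ∧ (a : ℤ) = x) :
    G.card ≤ (16 * S * u ^ 2) ^ (4 * Nat.log 2 (2 * u)) := by
  refine card_le_of_symmetric hG hu ?_
  rintro X hX ⟨M, hM⟩
  by_contra hc
  rw [not_le] at hc
  obtain ⟨x0, hx0⟩ : X.Nonempty := Finset.card_pos.1 (by omega)
  obtain ⟨a0, -, -, ha0⟩ := hGA x0 (hX hx0)
  obtain ⟨b0, -, -, hb0⟩ := hGA _ (hX (hM x0 hx0))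
  have hMn : ((M.toNat : ℕ) : ℤ) = M := Int.toNat_of_nonneg (by omega)
  have q1 : ∀ x ∈ X.image Int.toNat, x ∈ A ∧ x ≤ L := by
    intro x hx
    rw [Finset.mem_image] at hx
    obtain ⟨y, hy, rfl⟩ := hx
    obtain ⟨a, ha, haL, hay⟩ := hGA y (hX hy)
    have h1 : y.toNat = a := by omega
    rw [h1]
    exact ⟨ha, haL⟩
  have q2 : ∀ x ∈ X.image Int.toNat, x ≤ M.toNat ∧ M.toNat - x ∈ X.image Int.toNat := by
    intro x hx
    rw [Finset.mem_image] at hx
    obtain ⟨y, hy, rfl⟩ := hx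
    obtain ⟨a, -, -, hay⟩ := hGA y (hX hy)
    obtain ⟨b, -, -, hby⟩ := hGA _ (hX (hM y hy))
    refine ⟨by omega, Finset.mem_image.2 ⟨M - y, hM y hy, by omega⟩⟩
  have q3 : 2 * u + 1 ≤ (X.image Int.toNat).card := by
    rw [Finset.card_image_of_injOn]
    · omega
    · intro x hx y hy hxy
      obtain ⟨a, -, -, hay⟩ := hGA x (hX hx)
      obtain ⟨b, -, -, hby⟩ := hGA y (hX hy)
      omega
  obtain ⟨n, hn, hle⟩ := reps_of_symmetric (h := h) q1 q2 q3
  have := hA n hn
  omega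

/-- An interval of sums of `h` elements needs many elements. -/
lemma count_pow {A : Set ℕ} {h n₀ N : ℕ} (hb : ∀ n, n₀ ≤ n → n ≤ N → (reps A h n).Nonempty)
    {B : Finset ℕ} (hB : ∀ a ∈ A, a ≤ N → a ∈ B) : N + 1 ≤ n₀ + B.card ^ h := by
  classical
  have h1 : ∀ n, ∃ f : Fin h → ℕ, n₀ ≤ n → n ≤ N → (∀ i, f i ∈ A) ∧ (∀ i, f i ≤ n) ∧
      (Multiset.ofList (List.ofFn f)).sum = n := by
    intro n
    by_cases hn : n₀ ≤ n ∧ n ≤ N
    · obtain ⟨s, hs⟩ := hb n hn.1 hn.2
      obtain ⟨f, hf1, hf2, hf3⟩ := reps_exists_fun hs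
      exact ⟨f, fun _ _ => ⟨hf1, hf2, by rw [hf3]; exact hs.2.2⟩⟩
    · exact ⟨fun _ => 0, fun h1 h2 => absurd ⟨h1, h2⟩ hn⟩
  choose p hp using h1
  have h3 : ((Finset.Icc n₀ N).image p : Finset (Fin h → ℕ)) ⊆
      Fintype.piFinset (fun _ : Fin h => B) := by
    intro q hq
    obtain ⟨n, hn, rfl⟩ := Finset.mem_image.1 hq
    rw [Finset.mem_Icc] at hn
    obtain ⟨h4, h5, h6⟩ := hp n hn.1 hn.2
    rw [Fintype.mem_piFinset]
    intro i
    exact hB _ (h4 i) ((h5 i).trans hn.2)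
  have h4 := Finset.card_le_card h3
  rw [Fintype.card_piFinset, Finset.prod_const, Finset.card_image_of_injOn, Nat.card_Icc,
    Finset.card_univ, Fintype.card_fin] at h4
  · omega
  · intro n hn m hm hnm
    rw [Finset.coe_Icc, Set.mem_Icc] at hn hm
    have h5 := (hp n hn.1 hn.2).2.2
    have h6 := (hp m hm.1 hm.2).2.2
    rw [← h5, ← h6, hnm]

/-- **Explicit inequality.** -/
theorem covering {A : Set ℕ} {h n₀ N L r u S K : ℕ} {G : Fin K → Finset ℤ} (hu : 1 ≤ u)
    (hr : r < (u + h / 2).choose (h / 2))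
    (hb : ∀ n, n₀ ≤ n → n ≤ N → (reps A h n).Nonempty)
    (hA : ∀ n ≤ h * L, (reps A h n).ncard ≤ r)
    (hG : ∀ k, ComputedIn S (G k)) (hGA : ∀ k, ∀ x ∈ G k, ∃ a ∈ A, a ≤ L ∧ (a : ℤ) = x)
    (hcov : ∀ a ∈ A, a ≤ N → ∃ k, (a : ℤ) ∈ G k) :
    N + 1 ≤ n₀ + (K * (16 * S * u ^ 2) ^ (4 * Nat.log 2 (2 * u))) ^ h := by
  classical
  set B := (16 * S * u ^ 2) ^ (4 * Nat.log 2 (2 * u)) with hBd
  refine (count_pow hb (B := ((Finset.univ : Finset (Fin K)).biUnion G).image Int.toNat)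
    ?_).trans ?_
  · intro a ha haN
    obtain ⟨k, hk⟩ := hcov a ha haN
    exact Finset.mem_image.2 ⟨(a : ℤ), Finset.mem_biUnion.2 ⟨k, Finset.mem_univ k, hk⟩, by simp⟩
  · have h4 : (((Finset.univ : Finset (Fin K)).biUnion G).image Int.toNat).card ≤ K * B := by
      refine le_trans Finset.card_image_le (le_trans Finset.card_biUnion_le ?_)
      refine le_trans (Finset.sum_le_card_nsmul _ _ B ?_) ?_
      · intro k _
        exact card_computed_le hu hr hA (hG k) (hGA k)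
      · simp
    have := Nat.pow_le_pow_left h4 h
    omega


lemma large (n₀ : ℕ) (C η : ℝ) (hη : 0 < η) :
    ∃ N₁ : ℕ, ∀ N : ℕ, N₁ ≤ N → (n₀ : ℝ) + C * (N : ℝ) ^ (1 - η) < N + 1 := by
  have h1 : Filter.Tendsto (fun N : ℕ => (N : ℝ) ^ η) Filter.atTop Filter.atTop :=
    (tendsto_rpow_atTop hη).comp tendsto_natCast_atTop_atTop
  obtain ⟨N₂, hN₂⟩ := Filter.eventually_atTop.1 (h1.eventually_ge_atTop (2 * C))
  refine ⟨max N₂ (2 * n₀ + 1), fun N hN => ?_⟩
  have h2 := hN₂ N (le_trans (le_max_left _ _) hN)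
  have h3 : 2 * n₀ + 1 ≤ N := le_trans (le_max_right _ _) hN
  have h4 : (2 * n₀ + 1 : ℝ) ≤ N := by exact_mod_cast h3
  have h5 : (0 : ℝ) < N := by linarith [(Nat.cast_nonneg n₀ : (0 : ℝ) ≤ n₀)]
  have h6 : (N : ℝ) ^ (1 - η) * (N : ℝ) ^ η = N := by
    rw [← Real.rpow_add h5, sub_add_cancel, Real.rpow_one]
  have h7 : 0 ≤ (N : ℝ) ^ (1 - η) := by positivity
  nlinarith [mul_le_mul_of_nonneg_left h2 h7]

lemma lt_choose {h r : ℕ} (hh : 2 ≤ h) : r < (r + h / 2).choose (h / 2) := by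
  obtain ⟨m, hm⟩ : ∃ m, h / 2 = m + 1 := ⟨h / 2 - 1, by omega⟩
  rw [hm]
  have h1 : (r + (m + 1)).choose (m + 1) = (r + (m + 1)).choose r :=
    (Nat.choose_symm_add).symm
  have h2 : (r + 1).choose r ≤ (r + (m + 1)).choose r := Nat.choose_le_choose r (by omega)
  have h3 : (r + 1).choose r = r + 1 := by rw [Nat.choose_succ_self_right]
  omega

lemma log_two_le (u : ℕ) (hu : 1 ≤ u) :
    ((4 * Nat.log 2 (2 * u) : ℕ) : ℝ) ≤ 6 * (1 + Real.log u) := by
  have hu' : (1 : ℝ) ≤ u := by exact_mod_cast hu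
  have h1 : (2 : ℝ) ^ Nat.log 2 (2 * u) ≤ 2 * u := by
    exact_mod_cast Nat.pow_log_le_self 2 (by omega : 2 * u ≠ 0)
  have h2 := Real.log_le_log (by positivity) h1
  rw [Real.log_pow, Real.log_mul (by norm_num) (by positivity)] at h2
  have h3 : (0.6931471803 : ℝ) < Real.log 2 := Real.log_two_gt_d9
  have h4 : Real.log 2 < 0.6931471808 := Real.log_two_lt_d9
  have h5 : 0 ≤ Real.log u := Real.log_nonneg hu'
  have h6 : (0 : ℝ) ≤ (Nat.log 2 (2 * u) : ℝ) := Nat.cast_nonneg _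
  push_cast
  nlinarith

/-- **Bases of order `h` covered by few computed subsets have unbounded representation
functions.** -/
theorem result :
    (∀ (A : Set ℕ) (h n₀ N L r u S K : ℕ) (G : Fin K → Finset ℤ), 1 ≤ u →
      r < (u + h / 2).choose (h / 2) →
      (∀ n, n₀ ≤ n → n ≤ N → (reps A h n).Nonempty) →
      (∀ n ≤ h * L, (reps A h n).ncard ≤ r) →
      (∀ k, ComputedIn S (G k)) → (∀ k, ∀ x ∈ G k, ∃ a ∈ A, a ≤ L ∧ (a : ℤ) = x) →
      (∀ a ∈ A, a ≤ N → ∃ k, (a : ℤ) ∈ G k) →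
      N + 1 ≤ n₀ + (K * (16 * S * u ^ 2) ^ (4 * Nat.log 2 (2 * u))) ^ h) ∧
    (∀ (A : Set ℕ) (h : ℕ), 2 ≤ h → (∃ n₀ : ℕ, ∀ n, n₀ ≤ n → (reps A h n).Nonempty) →
      (∃ ε : ℝ, 0 < ε ∧ ∀ δ : ℝ, 0 < δ → ∀ N₀ : ℕ, ∃ N : ℕ, N₀ ≤ N ∧
        ∃ (S K : ℕ) (G : Fin K → Finset ℤ), (S : ℝ) ≤ (N : ℝ) ^ δ ∧
          (K : ℝ) ≤ (N : ℝ) ^ ((1 : ℝ) / h - ε) ∧ (∀ k, ComputedIn S (G k)) ∧
          (∀ k, ∀ x ∈ G k, ∃ a ∈ A, (a : ℤ) = x) ∧ (∀ a ∈ A, a ≤ N → ∃ k, (a : ℤ) ∈ G k)) →
      ∀ r : ℕ, ∃ n, r < (reps A h n).ncard) ∧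
    (∀ (h : ℕ) (ε : ℝ), 2 ≤ h → 0 < ε → ∃ c : ℝ, 0 < c ∧ ∀ n₀ : ℕ, ∃ N₀ : ℕ,
      ∀ A : Set ℕ, (∀ n, n₀ ≤ n → (reps A h n).Nonempty) → ∀ N : ℕ, N₀ ≤ N →
      ∀ (S K : ℕ) (G : Fin K → Finset ℤ), (S : ℝ) ≤ Real.exp (√(Real.log N)) →
        (K : ℝ) ≤ (N : ℝ) ^ ((1 : ℝ) / h - ε) → (∀ k, ComputedIn S (G k)) →
        (∀ k, ∀ x ∈ G k, ∃ a ∈ A, a ≤ N ∧ (a : ℤ) = x) →
        (∀ a ∈ A, a ≤ N → ∃ k, (a : ℤ) ∈ G k) →
        ∃ n ≤ h * N, Real.exp (c * √(Real.log N)) ≤ ((reps A h n).ncard : ℝ)) := by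
  refine ⟨fun A h n₀ N L r u S K G hu hr hb hA hG hGA hcov =>
    covering hu hr hb hA hG hGA hcov, ?_, ?_⟩
  · rintro A h hh ⟨n₀, hn₀⟩ ⟨ε, hε, hcov⟩ r
    by_contra hbd
    push Not at hbd
    have hh0 : (0 : ℝ) < h := by exact_mod_cast (by omega : 0 < h)
    set u := max r 1 with hu
    have hu1 : 1 ≤ u := le_max_right _ _
    have hur : r < (u + h / 2).choose (h / 2) :=
      lt_of_le_of_lt (le_max_left r 1) (lt_choose hh)
    set D := 4 * Nat.log 2 (2 * u) with hD
    have hD0 : 0 < D := by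
      have : 1 ≤ Nat.log 2 (2 * u) := Nat.log_pos (by norm_num) (by omega)
      omega
    have hDR : (0 : ℝ) < D := by exact_mod_cast hD0
    obtain ⟨N₁, hN₁⟩ := large n₀ (((16 * u ^ 2 : ℕ) : ℝ) ^ (D * h)) (h * ε / 2) (by positivity)
    obtain ⟨N, hN, S, K, G, hS, hK, hG, hGA, hc⟩ := hcov (ε / (2 * D)) (by positivity) (max N₁ 1)
    have hN1 : 1 ≤ N := le_trans (le_max_right _ _) hN
    have hNR : (0 : ℝ) < N := by exact_mod_cast hN1
    obtain ⟨L, hL⟩ : ∃ L : ℕ, ∀ k, ∀ x ∈ G k, ∃ a ∈ A, a ≤ L ∧ (a : ℤ) = x := by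
      refine ⟨((Finset.univ : Finset (Fin K)).biUnion G).sup Int.toNat, fun k x hx => ?_⟩
      obtain ⟨a, ha, hax⟩ := hGA k x hx
      refine ⟨a, ha, ?_, hax⟩
      have h1 : x.toNat ≤ ((Finset.univ : Finset (Fin K)).biUnion G).sup Int.toNat :=
        Finset.le_sup (f := Int.toNat) (Finset.mem_biUnion.2 ⟨k, Finset.mem_univ k, hx⟩)
      omega
    have h1 := covering (n₀ := n₀) hu1 hur (fun n hn _ => hn₀ n hn) (L := L) (fun n _ => hbd n)
      hG hL hc
    have h2 : ((K : ℝ) * ((16 * S * u ^ 2 : ℕ) : ℝ) ^ D) ^ h ≤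
        ((16 * u ^ 2 : ℕ) : ℝ) ^ (D * h) * (N : ℝ) ^ (1 - h * ε / 2) := by
      have e1 : ((16 * S * u ^ 2 : ℕ) : ℝ) ^ D ≤
          ((16 * u ^ 2 : ℕ) : ℝ) ^ D * (N : ℝ) ^ (ε / 2) := by
        have e2 : ((16 * S * u ^ 2 : ℕ) : ℝ) = ((16 * u ^ 2 : ℕ) : ℝ) * S := by push_cast; ring
        rw [e2, mul_pow]
        refine mul_le_mul_of_nonneg_left ?_ (by positivity)
        calc (S : ℝ) ^ D ≤ ((N : ℝ) ^ (ε / (2 * D))) ^ D :=
              pow_le_pow_left₀ (Nat.cast_nonneg _) hS D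
          _ = (N : ℝ) ^ (ε / 2) := by
              rw [← Real.rpow_natCast, ← Real.rpow_mul hNR.le]
              congr 1
              field_simp
      calc ((K : ℝ) * ((16 * S * u ^ 2 : ℕ) : ℝ) ^ D) ^ h
          ≤ ((N : ℝ) ^ ((1 : ℝ) / h - ε) *
              (((16 * u ^ 2 : ℕ) : ℝ) ^ D * (N : ℝ) ^ (ε / 2))) ^ h := by
            gcongr
        _ = ((16 * u ^ 2 : ℕ) : ℝ) ^ (D * h) * (N : ℝ) ^ (1 - h * ε / 2) := by
            have e3 : (N : ℝ) ^ ((1 : ℝ) / h - ε) *
                (((16 * u ^ 2 : ℕ) : ℝ) ^ D * (N : ℝ) ^ (ε / 2)) =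
                ((16 * u ^ 2 : ℕ) : ℝ) ^ D * (N : ℝ) ^ ((1 : ℝ) / h - ε / 2) := by
              rw [mul_left_comm, ← Real.rpow_add hNR]
              congr 2
              ring
            rw [e3, mul_pow, ← pow_mul, ← Real.rpow_natCast ((N : ℝ) ^ ((1 : ℝ) / h - ε / 2)),
              ← Real.rpow_mul hNR.le]
            congr 2
            field_simp
    have h3 : ((N : ℝ) + 1) ≤ n₀ + ((K : ℝ) * ((16 * S * u ^ 2 : ℕ) : ℝ) ^ D) ^ h := by
      exact_mod_cast h1
    have h4 := hN₁ N (le_trans (le_max_left _ _) hN)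
    linarith
  · intro h ε hh hε
    have hh0 : (0 : ℝ) < h := by exact_mod_cast (by omega : 0 < h)
    set c : ℝ := min (ε / 72) (1 / 2) with hcd
    have hc0 : 0 < c := by positivity
    have hc1 : c ≤ ε / 72 := min_le_left _ _
    have hc2 : c ≤ 1 / 2 := min_le_right _ _
    refine ⟨c, hc0, fun n₀ => ?_⟩
    obtain ⟨N₁, hN₁⟩ := large n₀ 1 (h * ε / 2) (by positivity)
    have h1 : Filter.Tendsto (fun N : ℕ => √(Real.log N)) Filter.atTop Filter.atTop :=
      Real.tendsto_sqrt_atTop.comp (Real.tendsto_log_atTop.comp tendsto_natCast_atTop_atTop)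
    obtain ⟨N₂, hN₂⟩ := Filter.eventually_atTop.1 (h1.eventually_ge_atTop (max 3 (72 / ε)))
    refine ⟨max N₁ (max N₂ 1), fun A hA N hN S K G hS hK hG hGA hcov => ?_⟩
    have hN1 : N₁ ≤ N := le_trans (le_max_left _ _) hN
    have hN2 : N₂ ≤ N := le_trans (le_trans (le_max_left _ _) (le_max_right _ _)) hN
    have hN3 : 1 ≤ N := le_trans (le_trans (le_max_right _ _) (le_max_right _ _)) hN
    have hNR : (0 : ℝ) < N := by exact_mod_cast hN3
    set x := √(Real.log N) with hx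
    have hx3 : 3 ≤ x := le_trans (le_max_left _ _) (hN₂ N hN2)
    have hx4 : 72 / ε ≤ x := le_trans (le_max_right _ _) (hN₂ N hN2)
    have hlog : x ^ 2 = Real.log N := Real.sq_sqrt (Real.log_nonneg (by exact_mod_cast hN3))
    by_contra hbd
    push Not at hbd
    set u := ⌊Real.exp (c * x)⌋₊ with hu
    have hu1 : 1 ≤ u := by
      rw [hu, Nat.one_le_floor_iff]
      exact Real.one_le_exp (by positivity)
    have hu2 : (u : ℝ) ≤ Real.exp (c * x) := Nat.floor_le (Real.exp_pos _).le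
    have hur : u < (u + h / 2).choose (h / 2) := lt_choose hh
    have h2 := covering (n₀ := n₀) hu1 hur (fun n hn _ => hA n hn) (L := N)
      (fun n hn => Nat.le_floor (hbd n hn).le) hG hGA hcov
    set D := 4 * Nat.log 2 (2 * u) with hD
    have hu3 : (1 : ℝ) ≤ u := by exact_mod_cast hu1
    have hlu : Real.log u ≤ c * x := by
      have := Real.log_le_log (by linarith) hu2
      rwa [Real.log_exp] at this
    have hDR : (D : ℝ) ≤ 6 * (1 + c * x) := by
      have := log_two_le u hu1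
      rw [← hD] at this
      linarith
    have h3 : ((16 * S * u ^ 2 : ℕ) : ℝ) ≤ Real.exp (3 * x) := by
      have e1 : (16 : ℝ) ≤ Real.exp 3 := by
        have := Real.exp_one_gt_d9
        have e2 : Real.exp 3 = Real.exp 1 ^ 3 := by rw [← Real.exp_nat_mul]; norm_num
        rw [e2]
        calc (16 : ℝ) ≤ 2.7182818283 ^ 3 := by norm_num
          _ ≤ Real.exp 1 ^ 3 := pow_le_pow_left₀ (by norm_num) this.le 3
      have e3 : (u : ℝ) ^ 2 ≤ Real.exp (c * x) ^ 2 := pow_le_pow_left₀ (by linarith) hu2 2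
      have e4 : Real.exp (c * x) ^ 2 = Real.exp (2 * (c * x)) := by
        rw [← Real.exp_nat_mul]; norm_num
      push_cast
      calc (16 : ℝ) * S * u ^ 2 ≤ Real.exp 3 * Real.exp x * Real.exp (2 * (c * x)) := by
            rw [← e4]
            gcongr
        _ = Real.exp (3 + x + 2 * (c * x)) := by rw [Real.exp_add, Real.exp_add]
        _ ≤ Real.exp (3 * x) := by
            apply Real.exp_le_exp.2
            nlinarith
    have h4 : ((16 * S * u ^ 2 : ℕ) : ℝ) ^ D ≤ Real.exp (ε / 2 * x ^ 2) := by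
      have e1 : Real.exp (3 * x) ^ D ≤ Real.exp (ε / 2 * x ^ 2) := by
        rw [← Real.exp_nat_mul]
        apply Real.exp_le_exp.2
        have e2 : (D : ℝ) * (3 * x) ≤ 6 * (1 + c * x) * (3 * x) :=
          mul_le_mul_of_nonneg_right hDR (by linarith)
        have e3 : 72 ≤ ε * x := by
          rw [div_le_iff₀ hε] at hx4
          linarith
        have e4 : c * x * x ≤ ε / 72 * x * x := by gcongr
        nlinarith [mul_le_mul_of_nonneg_right e3 (by linarith : (0 : ℝ) ≤ x)]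
      exact (pow_le_pow_left₀ (Nat.cast_nonneg _) h3 D).trans e1
    have h5 : ((K : ℝ) * ((16 * S * u ^ 2 : ℕ) : ℝ) ^ D) ^ h ≤ 1 * (N : ℝ) ^ (1 - h * ε / 2) := by
      calc ((K : ℝ) * ((16 * S * u ^ 2 : ℕ) : ℝ) ^ D) ^ h
          ≤ ((N : ℝ) ^ ((1 : ℝ) / h - ε) * (N : ℝ) ^ (ε / 2)) ^ h := by
            have e1 : Real.exp (ε / 2 * x ^ 2) = (N : ℝ) ^ (ε / 2) := by
              rw [Real.rpow_def_of_pos hNR, hlog, mul_comm]
            rw [← e1]
            gcongr
        _ = 1 * (N : ℝ) ^ (1 - h * ε / 2) := by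
            rw [← Real.rpow_add hNR, ← Real.rpow_natCast, ← Real.rpow_mul hNR.le, one_mul]
            congr 1
            field_simp
            ring
    have h6 : ((N : ℝ) + 1) ≤ n₀ + ((K : ℝ) * ((16 * S * u ^ 2 : ℕ) : ℝ) ^ D) ^ h := by
      exact_mod_cast h2
    have h7 := hN₁ N hN1
    linarith

end Pool.Agent.Results.MP_d5a1e1_nt.SetComputations
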